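import Pool.Agent.Helper55.PC.Events

/-!
# Block C8 of MP_cf7fa9_pr: the choice of the parameters
-/

namespace Pool.Agent.Helper55.PC

open Finset Filter
open scoped Topology ENNReal Classical

theorem pe_upper (m N : ℕ) : (1 + 1 / (m : ℝ)) ^ N ≤ Real.exp ((N : ℝ) / m) := by
  have h : 1 + 1 / (m : ℝ) ≤ Real.exp (1 / m) := by
    have := Real.add_one_le_exp (1 / (m : ℝ)); linarith
  calc (1 + 1 / (m : ℝ)) ^ N ≤ (Real.exp (1 / m)) ^ N :=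
        pow_le_pow_left₀ (by positivity) h N
    _ = Real.exp ((N : ℝ) / m) := by rw [← Real.exp_nat_mul]; congr 1; ring

theorem pe_lower (m N : ℕ) (hm : 1 ≤ m) :
    Real.exp ((N : ℝ) / (m + 1)) ≤ (1 + 1 / (m : ℝ)) ^ N := by
  have hm0 : (0 : ℝ) < m := by exact_mod_cast hm
  have h : Real.exp (1 / ((m : ℝ) + 1)) ≤ 1 + 1 / (m : ℝ) := by
    have h1 := Real.add_one_le_exp (-(1 / ((m : ℝ) + 1)))
    rw [Real.exp_neg] at h1
    have h2 : (m : ℝ) / (m + 1) ≤ (Real.exp (1 / ((m : ℝ) + 1)))⁻¹ := by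
      refine le_trans (le_of_eq ?_) h1
      field_simp
      ring
    have h3 : (0 : ℝ) < (m : ℝ) / (m + 1) := by positivity
    have h4 := (le_inv_comm₀ h3 (Real.exp_pos _)).mp h2
    refine h4.trans (le_of_eq ?_)
    field_simp
  calc Real.exp ((N : ℝ) / (m + 1)) = (Real.exp (1 / ((m : ℝ) + 1))) ^ N := by
        rw [← Real.exp_nat_mul]; congr 1; ring
    _ ≤ (1 + 1 / (m : ℝ)) ^ N := pow_le_pow_left₀ (Real.exp_pos _).le h N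

/-- the choice of `k` and `r` -/
theorem pick_k (ε : ℝ) (hε : 0 < ε) : ∃ k r : ℕ, 9 ≤ k ∧ 1 ≤ r ∧ r ≤ k ∧ 2 ^ r = k ^ 2 ∧
    (k : ℝ) ^ 3 * Real.exp (-k) ≤ ε := by
  have h1 := Real.tendsto_pow_mul_exp_neg_atTop_nhds_zero 3
  have h2 : Tendsto (fun j : ℕ => ((2 ^ j : ℕ) : ℝ)) atTop atTop :=
    tendsto_natCast_atTop_atTop.comp (tendsto_pow_atTop_atTop_of_one_lt (by norm_num))
  have h3 := h1.comp h2
  have h4 := (h3.eventually (gt_mem_nhds hε)).and (eventually_ge_atTop 4)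
  obtain ⟨j, hj, hj4⟩ := h4.exists
  refine ⟨2 ^ j, 2 * j, ?_, by omega, ?_, by rw [← pow_mul, mul_comm], hj.le⟩
  · calc 9 ≤ 2 ^ 4 := by norm_num
      _ ≤ 2 ^ j := Nat.pow_le_pow_right (by norm_num) hj4
  · have : ∀ i : ℕ, 2 * (i + 4) ≤ 2 ^ (i + 4) := by
      intro i
      induction i with
      | zero => norm_num
      | succ i ih => rw [show i + 1 + 4 = (i + 4) + 1 by ring, pow_succ]; omega
    obtain ⟨i, rfl⟩ := Nat.exists_eq_add_of_le' hj4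
    exact this i

theorem exp_neg_two_le (x : ℝ) (h0 : 0 ≤ x) (h1 : x ≤ 1 / 2) : Real.exp (-(2 * x)) ≤ 1 - x := by
  have h2 := Real.add_one_le_exp (2 * x)
  rw [Real.exp_neg]
  have h3 : (0 : ℝ) < 2 * x + 1 := by linarith
  have h4 : (Real.exp (2 * x))⁻¹ ≤ (2 * x + 1)⁻¹ := inv_anti₀ h3 h2
  refine h4.trans ?_
  rw [inv_le_iff_one_le_mul₀ h3]
  nlinarith

/-- consequences of the smallness of `k ^ 3 exp (-k)` -/
theorem k_facts (k n : ℕ) (hk : 9 ≤ k)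
    (h : (k : ℝ) ^ 3 * Real.exp (-k) ≤ Real.exp (-7) / (4 * (n + 1))) :
    48 * ((k : ℝ) + 1) * k ^ 2 * (n + 1) ≤ 33 * Real.exp (k + 1) ∧
    4 * (k : ℝ) ^ 2 * Real.exp (7 - k) ≤ k + 4 ∧
    2 * Real.exp (7 - (k : ℝ)) ≤ 1 / (2 * (n + 1)) := by
  have hK : (9 : ℝ) ≤ k := by exact_mod_cast hk
  have hn : (0 : ℝ) < (n : ℝ) + 1 := by positivity
  have h7 : Real.exp (7 - (k : ℝ)) * (k : ℝ) ^ 3 * (4 * (n + 1)) ≤ 1 := by
    have h1 : Real.exp (7 - (k : ℝ)) = Real.exp 7 * Real.exp (-k) := by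
      rw [← Real.exp_add]; congr 1
    have h2 : Real.exp (-7) = (Real.exp 7)⁻¹ := Real.exp_neg 7
    rw [le_div_iff₀ (by positivity), h2] at h
    have h3 := mul_le_mul_of_nonneg_left h (Real.exp_pos 7).le
    rw [mul_inv_cancel₀ (Real.exp_pos 7).ne'] at h3
    rw [h1]
    linarith
  have hp := Real.exp_pos (7 - (k : ℝ))
  refine ⟨?_, ?_, ?_⟩
  · -- exp (k+1) = exp 8 / exp (7-k)
    have h1 : Real.exp ((k : ℝ) + 1) * Real.exp (7 - (k : ℝ)) = Real.exp 8 := by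
      rw [← Real.exp_add]; congr 1; ring
    have h8 : (9 : ℝ) ≤ Real.exp 8 := by
      have := Real.add_one_le_exp (8 : ℝ); linarith
    have hq := Real.exp_pos ((k : ℝ) + 1)
    have h2 : Real.exp 8 * ((k : ℝ) ^ 3 * (4 * (n + 1))) ≤ Real.exp ((k : ℝ) + 1) := by
      calc Real.exp 8 * ((k : ℝ) ^ 3 * (4 * (n + 1)))
          = Real.exp ((k : ℝ) + 1) *
            (Real.exp (7 - (k : ℝ)) * (k : ℝ) ^ 3 * (4 * (n + 1))) := by rw [← h1]; ring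
        _ ≤ Real.exp ((k : ℝ) + 1) * 1 := mul_le_mul_of_nonneg_left h7 hq.le
        _ = _ := mul_one _
    have h3 : 9 * ((k : ℝ) ^ 3 * (4 * (n + 1))) ≤ Real.exp 8 * ((k : ℝ) ^ 3 * (4 * (n + 1))) :=
      mul_le_mul_of_nonneg_right h8 (by positivity)
    have h4 : 48 * ((k : ℝ) + 1) * k ^ 2 * (n + 1) ≤ 33 * (9 * ((k : ℝ) ^ 3 * (4 * (n + 1)))) := by
      have : 48 * ((k : ℝ) + 1) ≤ 33 * 9 * 4 * k := by linarith
      have h5 := mul_le_mul_of_nonneg_right this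
        (by positivity : (0 : ℝ) ≤ (k : ℝ) ^ 2 * ((n : ℝ) + 1))
      linarith
    linarith
  · have h1 : Real.exp (7 - (k : ℝ)) * (k : ℝ) ^ 3 * 4 ≤ 1 := by
      refine le_trans ?_ h7
      have : (0 : ℝ) ≤ Real.exp (7 - (k : ℝ)) * (k : ℝ) ^ 3 * 4 := by positivity
      have h0 : (0 : ℝ) ≤ n := Nat.cast_nonneg n
      nlinarith
    have h2 : 4 * (k : ℝ) ^ 2 * Real.exp (7 - k) ≤ Real.exp (7 - (k : ℝ)) * (k : ℝ) ^ 3 * 4 := by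
      have : (k : ℝ) ^ 2 ≤ (k : ℝ) ^ 3 := pow_le_pow_right₀ (by linarith) (by norm_num)
      have := mul_le_mul_of_nonneg_left this (mul_nonneg (by norm_num : (0:ℝ) ≤ 4) hp.le)
      linarith
    linarith
  · rw [le_div_iff₀ (by positivity)]
    have h2 : Real.exp (7 - (k : ℝ)) * (4 * (n + 1)) ≤
        Real.exp (7 - (k : ℝ)) * (k : ℝ) ^ 3 * (4 * (n + 1)) := by
      have : (1 : ℝ) ≤ (k : ℝ) ^ 3 := one_le_pow₀ (by linarith)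
      have := mul_le_mul_of_nonneg_left this
        (mul_nonneg hp.le (by positivity : (0:ℝ) ≤ 4 * ((n : ℝ) + 1)))
      linarith
    linarith

/-- bounds for `(1 + 1/ma)^Ra` and for `t1` -/
theorem t1_facts (k L : ℕ) (hk : 9 ≤ k) (hL : 1 ≤ L) (ma Ra t1 : ℕ) (hma : ma = (k - 2) * (12 * L))
    (hRa : Ra = (k ^ 2 + 3) * (12 * L))
    (ht1 : t1 = ⌈56 * (ma : ℝ) * (ma + 1) * (1 + 1 / (ma : ℝ)) ^ Ra⌉₊) :
    56 * (ma : ℝ) * (ma + 1) * (1 + 1 / (ma : ℝ)) ^ Ra ≤ t1 ∧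
    33 * ((k : ℝ) * (12 * L)) ^ 2 * Real.exp (k + 1) ≤ t1 ∧
    (t1 : ℝ) ≤ 57 * (ma : ℝ) * (ma + 1) * Real.exp (k + 3) ∧
    (t1 : ℝ) / (7 * (L : ℝ) ^ 2) ≤ 1249 * (k : ℝ) ^ 2 * Real.exp (k + 3) := by
  have hK : (9 : ℝ) ≤ k := by exact_mod_cast hk
  have hLr : (1 : ℝ) ≤ L := by exact_mod_cast hL
  have hmar : (ma : ℝ) = ((k : ℝ) - 2) * (12 * L) := by
    rw [hma]; push_cast [Nat.cast_sub (show 2 ≤ k by omega)]; ring
  have hRar : (Ra : ℝ) = ((k : ℝ) ^ 2 + 3) * (12 * L) := by rw [hRa]; push_cast; ring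
  have hma1 : 1 ≤ ma := by
    rw [hma]
    exact Nat.one_le_iff_ne_zero.mpr (Nat.mul_ne_zero (by omega) (by omega))
  have hma0 : (1 : ℝ) ≤ ma := by exact_mod_cast hma1
  have hlow : 56 * (ma : ℝ) * (ma + 1) * (1 + 1 / (ma : ℝ)) ^ Ra ≤ t1 := by
    rw [ht1]; exact Nat.le_ceil _
  have hup1 : (1 + 1 / (ma : ℝ)) ^ Ra ≤ Real.exp (k + 3) := by
    refine (pe_upper ma Ra).trans (Real.exp_le_exp.mpr ?_)
    rw [div_le_iff₀ (by linarith), hmar, hRar]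
    nlinarith
  have hlo1 : Real.exp (k + 1) ≤ (1 + 1 / (ma : ℝ)) ^ Ra := by
    refine le_trans (Real.exp_le_exp.mpr ?_) (pe_lower ma Ra hma1)
    rw [le_div_iff₀ (by linarith), hmar, hRar]
    nlinarith
  have hup : (t1 : ℝ) ≤ 57 * (ma : ℝ) * (ma + 1) * Real.exp (k + 3) := by
    have h1 : (t1 : ℝ) < 56 * (ma : ℝ) * (ma + 1) * (1 + 1 / (ma : ℝ)) ^ Ra + 1 := by
      rw [ht1]; exact Nat.ceil_lt_add_one (by positivity)
    have h2 : 56 * (ma : ℝ) * (ma + 1) * (1 + 1 / (ma : ℝ)) ^ Ra ≤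
        56 * (ma : ℝ) * (ma + 1) * Real.exp (k + 3) :=
      mul_le_mul_of_nonneg_left hup1 (by positivity)
    have h3 : (1 : ℝ) ≤ (ma : ℝ) * (ma + 1) * Real.exp (k + 3) := by
      have he : (1 : ℝ) ≤ Real.exp (k + 3) := Real.one_le_exp (by linarith)
      have h4 : (1 : ℝ) ≤ (ma : ℝ) * (ma + 1) := by nlinarith
      nlinarith
    linarith
  refine ⟨hlow, ?_, hup, ?_⟩
  · have h1 : 56 * (ma : ℝ) * (ma + 1) * Real.exp (k + 1) ≤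
        56 * (ma : ℝ) * (ma + 1) * (1 + 1 / (ma : ℝ)) ^ Ra :=
      mul_le_mul_of_nonneg_left hlo1 (by positivity)
    have h2 : 33 * ((k : ℝ) * (12 * L)) ^ 2 ≤ 56 * (ma : ℝ) * (ma + 1) := by
      have h3 : 7 * ((k : ℝ) * (12 * L)) ≤ 9 * ma := by
        rw [hmar]; nlinarith
      have h4 : (0 : ℝ) ≤ (k : ℝ) * (12 * L) := by positivity
      nlinarith
    have h5 := mul_le_mul_of_nonneg_right h2 (Real.exp_pos ((k : ℝ) + 1)).le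
    linarith
  · rw [div_le_iff₀ (by positivity)]
    refine hup.trans ?_
    have h6 : (ma : ℝ) * (ma + 1) ≤ 144 * (k : ℝ) ^ 2 * (L : ℝ) ^ 2 := by
      have h7 : (ma : ℝ) ≤ 12 * (k * L) := by rw [hmar]; nlinarith
      have h8 : (ma : ℝ) + 1 ≤ 12 * (k * L) := by rw [hmar]; nlinarith
      calc (ma : ℝ) * (ma + 1) ≤ (12 * (k * L)) * (12 * (k * L)) :=
            mul_le_mul h7 h8 (by linarith) (by positivity)
        _ = _ := by ring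
    have h9 := mul_le_mul_of_nonneg_right h6 (Real.exp_pos ((k : ℝ) + 3)).le
    have h10 : (0 : ℝ) ≤ (k : ℝ) ^ 2 * (L : ℝ) ^ 2 * Real.exp (k + 3) := by positivity
    nlinarith

/-- bounds for `θ` -/
theorem theta_facts (k L : ℕ) (hk : 9 ≤ k) (hL : 1 ≤ L) (m R' : ℕ) (hm : m = (k + 4) * (12 * L))
    (hR : R' = (k ^ 2 - 1 - k - 2) * (12 * L)) (θ : ℝ)
    (hθ : θ = 2 * ((1 + 1 / (m : ℝ)) ^ (R' - m))⁻¹)
    (hk2 : 4 * (k : ℝ) ^ 2 * Real.exp (7 - k) ≤ k + 4) :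
    0 < θ ∧ θ ≤ 2 * Real.exp (7 - (k : ℝ)) ∧ ((R' - m : ℕ) : ℝ) * θ ≤ (m + 1) / 2 := by
  have hK : (9 : ℝ) ≤ k := by exact_mod_cast hk
  have hLr : (1 : ℝ) ≤ L := by exact_mod_cast hL
  have hmr : (m : ℝ) = ((k : ℝ) + 4) * (12 * L) := by rw [hm]; push_cast; ring
  have hkk : k + 3 ≤ k ^ 2 := by nlinarith
  have hkk2 : 2 * k + 7 ≤ k ^ 2 := by nlinarith
  have hRm : R' - m = (k ^ 2 - (2 * k + 7)) * (12 * L) := by
    rw [hR, hm, ← Nat.sub_mul]; congr 1; omega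
  have hRmr : ((R' - m : ℕ) : ℝ) = ((k : ℝ) ^ 2 - (2 * k + 7)) * (12 * L) := by
    rw [hRm]; push_cast [Nat.cast_sub hkk2]; ring
  have hm1 : 1 ≤ m := by
    rw [hm]
    exact Nat.one_le_iff_ne_zero.mpr (Nat.mul_ne_zero (by omega) (by omega))
  have hm0 : (1 : ℝ) ≤ m := by exact_mod_cast hm1
  have hlo : Real.exp ((k : ℝ) - 7) ≤ (1 + 1 / (m : ℝ)) ^ (R' - m) := by
    refine le_trans (Real.exp_le_exp.mpr ?_) (pe_lower m (R' - m) hm1)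
    rw [le_div_iff₀ (by linarith), hmr, hRmr]
    nlinarith
  have hinv : ((1 + 1 / (m : ℝ)) ^ (R' - m))⁻¹ ≤ Real.exp (7 - (k : ℝ)) := by
    rw [show (7 : ℝ) - k = -((k : ℝ) - 7) by ring, Real.exp_neg]
    exact inv_anti₀ (Real.exp_pos _) hlo
  have hθ2 : θ ≤ 2 * Real.exp (7 - (k : ℝ)) := by rw [hθ]; linarith
  have hθ0 : 0 < θ := by rw [hθ]; positivity
  refine ⟨hθ0, hθ2, ?_⟩
  have h1 : ((R' - m : ℕ) : ℝ) * θ ≤ ((R' - m : ℕ) : ℝ) * (2 * Real.exp (7 - (k : ℝ))) :=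
    mul_le_mul_of_nonneg_left hθ2 (Nat.cast_nonneg _)
  have h2 : ((R' - m : ℕ) : ℝ) * (2 * Real.exp (7 - (k : ℝ))) ≤
      ((k : ℝ) ^ 2 * (12 * L)) * (2 * Real.exp (7 - (k : ℝ))) := by
    refine mul_le_mul_of_nonneg_right ?_ (by positivity)
    rw [hRmr]
    exact mul_le_mul_of_nonneg_right (by linarith) (by positivity)
  have h3 : ((k : ℝ) ^ 2 * (12 * L)) * (2 * Real.exp (7 - (k : ℝ))) * 2 ≤ m := by
    have := mul_le_mul_of_nonneg_right hk2 (by positivity : (0 : ℝ) ≤ 12 * L)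
    rw [hmr]
    linarith
  linarith

/-- the main lower bound for the survival probability -/
theorem surv_low (k L : ℕ) (hk : 9 ≤ k) (hL : 1 ≤ L) (ma m t1 : ℕ) (hma : ma = (k - 2) * (12 * L))
    (hm : m = (k + 4) * (12 * L)) (θ : ℝ) (hθ0 : 0 < θ) (hθ1 : θ < 1)
    (hθ : θ ≤ 2 * Real.exp (7 - (k : ℝ))) (ht1 : 0 < t1)
    (ht1u : (t1 : ℝ) ≤ 57 * (ma : ℝ) * (ma + 1) * Real.exp (k + 3)) (t : ℕ) :
    Real.exp (-(34 * Real.exp 10 * t / t1)) - θ ≤ (1 - θ / (7 * m * (m + 1))) ^ t / (1 + θ) := by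
  have hm1 : 1 ≤ m := by
    rw [hm]
    exact Nat.one_le_iff_ne_zero.mpr (Nat.mul_ne_zero (by omega) (by omega))
  have hm0 : (1 : ℝ) ≤ m := by exact_mod_cast hm1
  have ht10 : (0 : ℝ) < t1 := by exact_mod_cast ht1
  have hmam : (ma : ℝ) ≤ m := by
    have : ma ≤ m := by rw [hma, hm]; exact Nat.mul_le_mul_right _ (by omega)
    exact_mod_cast this
  have hma0 : (0 : ℝ) ≤ ma := Nat.cast_nonneg _
  set x : ℝ := θ / (7 * m * (m + 1)) with hx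
  have hden : (0 : ℝ) < 7 * m * (m + 1) := by positivity
  have hx0 : 0 ≤ x := by positivity
  have hx1 : x ≤ 1 / 2 := by
    rw [hx, div_le_iff₀ hden]
    nlinarith
  have hxt : x * t1 ≤ 17 * Real.exp 10 := by
    have h1 : x * t1 = θ * t1 / (7 * m * (m + 1)) := by rw [hx]; ring
    rw [h1, div_le_iff₀ hden]
    have h2 : θ * t1 ≤ (2 * Real.exp (7 - (k : ℝ))) *
        (57 * (ma : ℝ) * (ma + 1) * Real.exp (k + 3)) :=
      mul_le_mul hθ ht1u ht10.le (by positivity)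
    have h3 : Real.exp (7 - (k : ℝ)) * Real.exp (k + 3) = Real.exp 10 := by
      rw [← Real.exp_add]; congr 1; ring
    have h4 : (2 * Real.exp (7 - (k : ℝ))) * (57 * (ma : ℝ) * (ma + 1) * Real.exp (k + 3)) =
        114 * ((ma : ℝ) * (ma + 1)) * Real.exp 10 := by rw [← h3]; ring
    have h5 : (ma : ℝ) * (ma + 1) ≤ m * (m + 1) :=
      mul_le_mul hmam (by linarith) (by linarith) (by linarith)
    have h6 := mul_le_mul_of_nonneg_right h5 (Real.exp_pos 10).le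
    have h7 : (0 : ℝ) ≤ m * (m + 1) * Real.exp 10 := by positivity
    linarith
  have hy : Real.exp (-(34 * Real.exp 10 * t / t1)) ≤ (1 - x) ^ t := by
    have h1 : Real.exp (-(2 * x)) ^ t ≤ (1 - x) ^ t :=
      pow_le_pow_left₀ (Real.exp_pos _).le (exp_neg_two_le x hx0 hx1) t
    refine le_trans ?_ h1
    rw [← Real.exp_nat_mul]
    refine Real.exp_le_exp.mpr ?_
    have h2 : (t : ℝ) * (2 * x) ≤ 34 * Real.exp 10 * t / t1 := by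
      rw [le_div_iff₀ ht10]
      have := mul_le_mul_of_nonneg_left hxt (by positivity : (0 : ℝ) ≤ 2 * t)
      linarith
    linarith
  have hy1 : Real.exp (-(34 * Real.exp 10 * t / t1)) ≤ 1 := by
    refine Real.exp_le_one_iff.mpr ?_
    have : (0 : ℝ) ≤ 34 * Real.exp 10 * t / t1 := by positivity
    linarith
  have hy0 := Real.exp_pos (-(34 * Real.exp 10 * t / t1))
  rw [le_div_iff₀ (by linarith)]
  nlinarith

/-- the error term -/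
theorem err_small (k r L n0 n t t1 B : ℕ) (Tm : ℝ) (hL : 1 ≤ L) (hLB : B ≤ L)
    (hB0 : 1 ≤ B) (hLr : L / r = B)
    (hT : (t1 : ℝ) / (7 * (L : ℝ) ^ 2) ≤ Tm) (ht : t ≤ n * t1)
    (hn0 : 8 * (n : ℝ) * (n + 1) * Tm ≤ n0)
    (hb : 8 * ((n : ℝ) + 1) * (28 * (k * r) * (1 + n * Tm)) ≤ B)
    (hc : 8 * ((n : ℝ) + 1) * (8 * 2 ^ (k * r * (n0 + 1))) ≤ B)
    (hd : 8 * ((n : ℝ) + 1) * (128 * 4 ^ (k * r + k * r * (n0 + 1))) ≤ B) :
    errL k r L n0 t ≤ 1 / (2 * (n + 1)) := by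
  have hLr1 : (1 : ℝ) ≤ L := by exact_mod_cast hL
  have hBr : (1 : ℝ) ≤ B := by exact_mod_cast hB0
  have hBL : (B : ℝ) ≤ L := by exact_mod_cast hLB
  have hn : (0 : ℝ) ≤ n := Nat.cast_nonneg n
  have hL2 : (0 : ℝ) < 7 * (L : ℝ) ^ 2 := by positivity
  have htT : (t : ℝ) / (7 * (L : ℝ) ^ 2) ≤ n * Tm := by
    have h1 : (t : ℝ) ≤ n * t1 := by exact_mod_cast ht
    calc (t : ℝ) / (7 * (L : ℝ) ^ 2) ≤ (n * t1) / (7 * (L : ℝ) ^ 2) :=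
          div_le_div_of_nonneg_right h1 hL2.le
      _ = n * (t1 / (7 * (L : ℝ) ^ 2)) := by ring
      _ ≤ n * Tm := mul_le_mul_of_nonneg_left hT hn
  have hn1 : (0 : ℝ) < (n : ℝ) + 1 := by positivity
  have h8 : (0 : ℝ) < 8 * ((n : ℝ) + 1) := by positivity
  unfold errL
  rw [hLr]
  have ha : (t : ℝ) / (7 * (L : ℝ) ^ 2 * (n0 + 1)) ≤ 1 / (8 * (n + 1)) := by
    have h1 : (t : ℝ) / (7 * (L : ℝ) ^ 2 * (n0 + 1)) = (t / (7 * (L : ℝ) ^ 2)) / (n0 + 1) := by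
      rw [div_div]
    rw [h1, div_le_div_iff₀ (by positivity) h8]
    have := mul_le_mul_of_nonneg_right htT h8.le
    nlinarith
  have hb' : 28 * ((k : ℝ) * r) / L * (1 + t / (7 * (L : ℝ) ^ 2)) ≤ 1 / (8 * (n + 1)) := by
    have h1 : 28 * ((k : ℝ) * r) / L * (1 + t / (7 * (L : ℝ) ^ 2)) =
        (28 * ((k : ℝ) * r) * (1 + t / (7 * (L : ℝ) ^ 2))) / L := by ring
    rw [h1, div_le_div_iff₀ (by linarith) h8]
    have h2 : 28 * ((k : ℝ) * r) * (1 + t / (7 * (L : ℝ) ^ 2)) ≤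
        28 * ((k : ℝ) * r) * (1 + n * Tm) :=
      mul_le_mul_of_nonneg_left (by linarith) (by positivity)
    have h3 := mul_le_mul_of_nonneg_left h2 h8.le
    linarith
  have hc' : 8 * (2 : ℝ) ^ (k * r * (n0 + 1)) / (B : ℝ) ≤ 1 / (8 * (n + 1)) := by
    rw [div_le_div_iff₀ (by linarith) h8]
    linarith
  have hd' : 128 * (4 : ℝ) ^ (k * r + k * r * (n0 + 1)) / (B : ℝ) ≤ 1 / (8 * (n + 1)) := by
    rw [div_le_div_iff₀ (by linarith) h8]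
    linarith
  have hsum : (1 : ℝ) / (2 * (n + 1)) = 1 / (8 * (n + 1)) + 1 / (8 * (n + 1)) +
      1 / (8 * (n + 1)) + 1 / (8 * (n + 1)) := by
    field_simp; norm_num
  rw [hsum]
  linarith

theorem params : ∃ C : ℝ, 0 < C ∧ ∀ n : ℕ, ∃ k r : ℕ, 9 ≤ k ∧ 1 ≤ r ∧ 2 ^ r = k ^ 2 ∧
    ∀ Wn T0 : ℕ, ∃ L n0 t0 t1 : ℕ, 1 ≤ L ∧ r ≤ L ∧ 14 ^ Wn ≤ L ∧ 14 ≤ L ∧ T0 ≤ t0 ∧ T0 ≤ t1 ∧ 0 < t0 ∧
      0 < t1 ∧
      7 * (((k - 2) * (12 * L) : ℕ) : ℝ) * ((((k - 2) * (12 * L) : ℕ) : ℝ) + 1) *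
        ((1 + 1 / (((k - 2) * (12 * L) : ℕ) : ℝ)) ^ ((2 ^ r + 3) * (12 * L)) - 1) / t1 ≤ 1 / 8 ∧
      ((k * (12 * L) : ℕ) : ℝ) * ((14 ^ Wn / (L : ℝ)) ^ 2 * (1 + t1 / (7 * (L : ℝ) ^ 2))) ≤ 1 / 32 ∧
      ((k * (12 * L) : ℕ) : ℝ) * ((14 / (L : ℝ)) ^ 2 * (1 + t1 / (7 * (L : ℝ) ^ 2))) ≤ 1 / 32 ∧
      6 * ((k * (12 * L) : ℕ) : ℝ) ^ 2 / t1 ≤ 1 / 16 ∧
      6 * ((k * (12 * L) : ℕ) : ℝ) ^ 2 / t0 ≤ 1 / 4 ∧
      2 * (r * (2 * ((k * (12 * L) : ℕ) : ℝ) ^ 2 + 28 * ((k * (12 * L) : ℕ) : ℝ)) +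
        (2 * ((k * (12 * L) : ℕ) : ℝ) ^ 2 + 2 * ((k * (12 * L) : ℕ) : ℝ) * 14 ^ Wn)) ≤ t0 ∧
      (t0 : ℝ) * 2 ^ (r + 1) ≤ t1 / (n + 1) ∧
      ∃ (m R' : ℕ) (θ : ℝ), m = (k + 4) * (12 * L) ∧ R' = (2 ^ r - 1 - k - 2) * (12 * L) ∧
        θ = 2 * ((1 + 1 / (m : ℝ)) ^ (R' - m))⁻¹ ∧ θ < 1 ∧
        ((R' - m : ℕ) : ℝ) * θ ≤ (m + 1) / 2 ∧
        ∀ t : ℕ, t ≤ n * t1 → Real.exp (-(C * t / t1)) - 1 / (n + 1) ≤
          (1 - θ / (7 * m * (m + 1))) ^ t / (1 + θ) - errL k r L n0 t := by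
  refine ⟨34 * Real.exp 10, by positivity, fun n => ?_⟩
  have hn : (0 : ℝ) ≤ n := Nat.cast_nonneg n
  obtain ⟨k, r, hk9, hr1, hrk, h2r, hε⟩ := pick_k (Real.exp (-7) / (4 * (n + 1))) (by positivity)
  refine ⟨k, r, hk9, hr1, h2r, fun Wn T0 => ?_⟩
  obtain ⟨F1, F2, F3⟩ := k_facts k n hk9 hε
  have hK : (9 : ℝ) ≤ k := by exact_mod_cast hk9
  have hr1r : (1 : ℝ) ≤ r := by exact_mod_cast hr1
  have hrkr : (r : ℝ) ≤ k := by exact_mod_cast hrk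
  have h2rr : (2 : ℝ) ^ r = (k : ℝ) ^ 2 := by exact_mod_cast h2r
  set Tm : ℝ := 1249 * (k : ℝ) ^ 2 * Real.exp (k + 3) with hTm
  have hTm0 : 0 ≤ Tm := by positivity
  obtain ⟨n0, hn0⟩ := exists_nat_ge (8 * (n : ℝ) * (n + 1) * Tm)
  obtain ⟨B, hB⟩ := exists_nat_ge ((T0 : ℝ) + 28 + 14 ^ Wn +
    384 * k * (14 ^ Wn) ^ 2 * (1 + Tm) + 384 * k * 14 ^ 2 * (1 + Tm) +
    8 * ((n : ℝ) + 1) * (28 * (k * r) * (1 + n * Tm)) +
    8 * ((n : ℝ) + 1) * (8 * 2 ^ (k * r * (n0 + 1))) +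
    8 * ((n : ℝ) + 1) * (128 * 4 ^ (k * r + k * r * (n0 + 1))))
  have e1 : (0 : ℝ) ≤ T0 := Nat.cast_nonneg _
  have e2 : (0 : ℝ) < 14 ^ Wn := by positivity
  have e3 : (0 : ℝ) ≤ 384 * k * (14 ^ Wn) ^ 2 * (1 + Tm) := by positivity
  have e4 : (0 : ℝ) ≤ 384 * k * 14 ^ 2 * (1 + Tm) := by positivity
  have e5 : (0 : ℝ) ≤ 8 * ((n : ℝ) + 1) * (28 * (k * r) * (1 + n * Tm)) := by positivity
  have e6 : (0 : ℝ) ≤ 8 * ((n : ℝ) + 1) * (8 * 2 ^ (k * r * (n0 + 1))) := by positivity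
  have e7 : (0 : ℝ) ≤ 8 * ((n : ℝ) + 1) * (128 * 4 ^ (k * r + k * r * (n0 + 1))) := by positivity
  have hB1r : (28 : ℝ) ≤ B := by linarith
  have hB28 : 28 ≤ B := by exact_mod_cast hB1r
  have hBT : T0 ≤ B := by
    have : (T0 : ℝ) ≤ B := by linarith
    exact_mod_cast this
  have hBW : 14 ^ Wn ≤ B := by
    have : ((14 ^ Wn : ℕ) : ℝ) ≤ B := by push_cast; linarith
    exact_mod_cast this
  obtain ⟨L, hLdef⟩ : ∃ L, L = r * B := ⟨_, rfl⟩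
  have hBL : B ≤ L := by rw [hLdef]; exact Nat.le_mul_of_pos_left B hr1
  have hrL : r ≤ L := by rw [hLdef]; exact Nat.le_mul_of_pos_right r (by omega)
  have hLr : L / r = B := by rw [hLdef]; exact Nat.mul_div_cancel_left B hr1
  have hL1 : 1 ≤ L := by omega
  have hL1r : (1 : ℝ) ≤ L := by exact_mod_cast hL1
  have hBLr : (B : ℝ) ≤ L := by exact_mod_cast hBL
  obtain ⟨ma, hma⟩ : ∃ ma, ma = (k - 2) * (12 * L) := ⟨_, rfl⟩
  obtain ⟨Ra, hRa⟩ : ∃ Ra, Ra = (k ^ 2 + 3) * (12 * L) := ⟨_, rfl⟩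
  obtain ⟨t1, ht1⟩ : ∃ t1, t1 = ⌈56 * (ma : ℝ) * (ma + 1) * (1 + 1 / (ma : ℝ)) ^ Ra⌉₊ := ⟨_, rfl⟩
  obtain ⟨T1, T2, T3, T4⟩ := t1_facts k L hk9 hL1 ma Ra t1 hma hRa ht1
  obtain ⟨ell, hell⟩ : ∃ ell, ell = k * (12 * L) := ⟨_, rfl⟩
  have hellr : (ell : ℝ) = (k : ℝ) * (12 * L) := by rw [hell]; push_cast; ring
  have hellL : 108 * (L : ℝ) ≤ ell := by
    have := mul_le_mul_of_nonneg_right hK (by positivity : (0 : ℝ) ≤ 12 * L)
    rw [hellr]; linarith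
  obtain ⟨t0, ht0⟩ : ∃ t0, t0 = 24 * (r + 1) * ell ^ 2 := ⟨_, rfl⟩
  have ht0r : (t0 : ℝ) = 24 * ((r : ℝ) + 1) * (ell : ℝ) ^ 2 := by rw [ht0]; push_cast; ring
  have hell1 : (1 : ℝ) ≤ ell := by linarith
  have hell2 : (ell : ℝ) ≤ (ell : ℝ) ^ 2 := le_self_pow₀ hell1 (by norm_num)
  have hexp1 : (1 : ℝ) ≤ Real.exp (k + 1) := Real.one_le_exp (by linarith)
  have hexp10 : (3 : ℝ) ≤ Real.exp (k + 1) := by
    have := Real.add_one_le_exp ((k : ℝ) + 1); linarith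
  have ht1ell : 99 * (ell : ℝ) ^ 2 ≤ t1 := by
    rw [← hellr] at T2
    have := mul_le_mul_of_nonneg_left hexp10 (by positivity : (0 : ℝ) ≤ 33 * (ell : ℝ) ^ 2)
    linarith
  have ht0ell : 24 * (ell : ℝ) ^ 2 ≤ t0 := by
    have : (0 : ℝ) ≤ (r : ℝ) * (ell : ℝ) ^ 2 := by positivity
    rw [ht0r]
    linarith
  have ht1pos : (0 : ℝ) < t1 := by linarith
  have ht0pos : (0 : ℝ) < t0 := by linarith
  have hT0L : (T0 : ℝ) ≤ L := le_trans (by exact_mod_cast hBT) hBLr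
  obtain ⟨m, hm⟩ : ∃ m, m = (k + 4) * (12 * L) := ⟨_, rfl⟩
  obtain ⟨R', hR'⟩ : ∃ R', R' = (k ^ 2 - 1 - k - 2) * (12 * L) := ⟨_, rfl⟩
  obtain ⟨θ, hθ⟩ : ∃ θ : ℝ, θ = 2 * ((1 + 1 / (m : ℝ)) ^ (R' - m))⁻¹ := ⟨_, rfl⟩
  obtain ⟨G1, G2, G3⟩ := theta_facts k L hk9 hL1 m R' hm hR' θ hθ F2
  have hhalf : (1 : ℝ) / (2 * (n + 1)) ≤ 1 / 2 := by
    rw [div_le_div_iff₀ (by positivity) (by norm_num)]
    linarith
  have hθ1 : θ < 1 := by linarith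
  have h14L : (14 : ℝ) ^ Wn ≤ L := by
    have : ((14 ^ Wn : ℕ) : ℝ) ≤ L := by exact_mod_cast hBW.trans hBL
    push_cast at this
    exact this
  refine ⟨L, n0, t0, t1, hL1, hrL, hBW.trans hBL, by omega, ?_, ?_, ?_, ?_, ?_, ?_, ?_, ?_, ?_, ?_,
    ?_, m, R', θ, hm, ?_, hθ, hθ1, G3, ?_⟩
  · have : (T0 : ℝ) ≤ t0 := by linarith
    exact_mod_cast this
  · have : (T0 : ℝ) ≤ t1 := by linarith
    exact_mod_cast this
  · exact_mod_cast ht0pos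
  · exact_mod_cast ht1pos
  · rw [← hma, h2r, ← hRa, div_le_iff₀ ht1pos]
    have : (0 : ℝ) ≤ 7 * (ma : ℝ) * (ma + 1) := by positivity
    linarith
  · rw [← hell, hellr]
    have h1 : (k : ℝ) * (12 * L) * ((14 ^ Wn / (L : ℝ)) ^ 2 * (1 + t1 / (7 * (L : ℝ) ^ 2))) =
        12 * k * (14 ^ Wn) ^ 2 * (1 + t1 / (7 * (L : ℝ) ^ 2)) / L := by
      field_simp
    rw [h1, div_le_iff₀ (by linarith)]
    have h2 : 12 * (k : ℝ) * (14 ^ Wn) ^ 2 * (1 + t1 / (7 * (L : ℝ) ^ 2)) ≤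
        12 * (k : ℝ) * (14 ^ Wn) ^ 2 * (1 + Tm) :=
      mul_le_mul_of_nonneg_left (by linarith) (by positivity)
    linarith
  · rw [← hell, hellr]
    have h1 : (k : ℝ) * (12 * L) * ((14 / (L : ℝ)) ^ 2 * (1 + t1 / (7 * (L : ℝ) ^ 2))) =
        12 * k * 14 ^ 2 * (1 + t1 / (7 * (L : ℝ) ^ 2)) / L := by
      field_simp
    rw [h1, div_le_iff₀ (by linarith)]
    have h2 : 12 * (k : ℝ) * 14 ^ 2 * (1 + t1 / (7 * (L : ℝ) ^ 2)) ≤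
        12 * (k : ℝ) * 14 ^ 2 * (1 + Tm) :=
      mul_le_mul_of_nonneg_left (by linarith) (by positivity)
    linarith
  · rw [← hell, div_le_iff₀ ht1pos]
    linarith
  · rw [← hell, div_le_iff₀ ht0pos]
    linarith
  · rw [← hell, ht0r]
    have h28 : (28 : ℝ) ≤ L := by linarith
    have h1 : 28 * (ell : ℝ) ≤ (ell : ℝ) ^ 2 := by
      rw [sq]; exact mul_le_mul_of_nonneg_right (by linarith) (by linarith)
    have h2 : (ell : ℝ) * 14 ^ Wn ≤ (ell : ℝ) ^ 2 := by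
      rw [sq]; exact mul_le_mul_of_nonneg_left (by linarith) (by linarith)
    have h3 := mul_le_mul_of_nonneg_left h1 (by positivity : (0 : ℝ) ≤ r)
    have h4 : (0 : ℝ) ≤ (r : ℝ) * (ell : ℝ) ^ 2 := by positivity
    have h5 : (0 : ℝ) ≤ (ell : ℝ) ^ 2 := by positivity
    linarith
  · rw [le_div_iff₀ (by positivity), pow_succ, h2rr, ht0r]
    rw [← hellr] at T2
    have h1 : 48 * ((r : ℝ) + 1) * k ^ 2 * (n + 1) ≤ 33 * Real.exp (k + 1) := by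
      refine le_trans ?_ F1
      have h2 : 48 * ((r : ℝ) + 1) ≤ 48 * ((k : ℝ) + 1) := by linarith
      have h3 := mul_le_mul_of_nonneg_right h2 (by positivity : (0 : ℝ) ≤ (k : ℝ) ^ 2 * (n + 1))
      linarith
    have h4 := mul_le_mul_of_nonneg_right h1 (sq_nonneg (ell : ℝ))
    linarith
  · rw [h2r, hR']
  · intro t ht
    have S1 := surv_low k L hk9 hL1 ma m t1 hma hm θ G1 hθ1 G2 (by exact_mod_cast ht1pos) T3 t
    have S2 := err_small k r L n0 n t t1 B Tm hL1 hBL (by omega) hLr T4 ht hn0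
      (by linarith) (by linarith) (by linarith)
    have S3 : (1 : ℝ) / (n + 1) = 1 / (2 * (n + 1)) + 1 / (2 * (n + 1)) := by
      field_simp; norm_num
    rw [S3]
    linarith

end Pool.Agent.Helper55.PC
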